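import Pool.Agent.L7h71.UN.Stm
import Pool.Agent.H330.Ramsey

set_option autoImplicit false

/-!
# Project UN (helper71), part FQ: a valued structure with infinitely many values is rigid
-/

namespace Pool.Agent.L7h73.UN

open Set Filter Function Pool.Agent.L7h71.UN

/-- A sequence of tuples with different values whose parts outside a finite set are disjoint. -/
lemma fq_seq {r : ℕ} {K V : Type} (M : St r K V) (hM : (range M).Infinite) :
    ∃ (R : Finset V) (u : ℕ → Fin r → V), Injective (fun n => M (u n)) ∧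
      ∀ m n i j, m ≠ n → u m i = u n j → u m i ∈ R := by
  classical
  obtain ⟨e⟩ : Nonempty (ℕ ↪ range M) := ⟨hM.natEmbedding⟩
  choose t ht using fun k => (e k).2
  have hinj : Injective (fun k => M (t k)) := by
    intro k l h
    simp only [ht] at h
    exact e.injective (Subtype.ext h)
  have hfin : ∀ i : Fin r, ∃ R : Finset V, ∀ a, ∀ᶠ k in (hyperfilter ℕ : Filter ℕ),
      t k i ∈ R ∨ t k i ≠ a := by
    intro i
    by_cases h : ∃ v, ∀ᶠ k in (hyperfilter ℕ : Filter ℕ), t k i = v
    · obtain ⟨v, hv⟩ := h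
      exact ⟨{v}, fun a => hv.mono fun k hk => Or.inl (by simp [hk])⟩
    · push Not at h
      exact ⟨∅, fun a => (h a).mono fun k hk => Or.inr hk⟩
  choose R hR using hfin
  have h2 : ∀ F : Finset V, ∀ᶠ k in (hyperfilter ℕ : Filter ℕ), ∀ i,
      t k i ∈ Finset.univ.biUnion R ∨ t k i ∉ F := by
    intro F
    rw [eventually_all]
    intro i
    have h3 : ∀ᶠ k in (hyperfilter ℕ : Filter ℕ), ∀ a ∈ F, t k i ∈ R i ∨ t k i ≠ a :=
      (eventually_all_finset F).2 fun a _ => hR i a
    refine h3.mono fun k hk => ?_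
    by_cases h4 : t k i ∈ F
    · rcases hk _ h4 with h5 | h5
      · exact Or.inl (Finset.mem_biUnion.2 ⟨i, Finset.mem_univ _, h5⟩)
      · exact absurd rfl h5
    · exact Or.inr h4
  obtain ⟨f, -, hf⟩ := exists_seq_of_forall_finset_exists (fun _ : ℕ => True)
    (fun x y => x ≠ y ∧ ∀ i j, t y i ∈ Finset.univ.biUnion R ∨ t y i ≠ t x j) (by
      intro s _
      have h3 := h2 (s.biUnion fun x => Finset.univ.image (t x))
      have h4 : ∀ᶠ k in (hyperfilter ℕ : Filter ℕ), k ∉ s := by
        have : ((s : Set ℕ)ᶜ) ∈ (hyperfilter ℕ : Filter ℕ) :=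
          hyperfilter_le_cofinite (s.finite_toSet.compl_mem_cofinite)
        exact this
      obtain ⟨k, hk1, hk2⟩ := (h3.and h4).exists
      refine ⟨k, trivial, fun x hx => ⟨fun h => hk2 (h ▸ hx), fun i j => ?_⟩⟩
      rcases hk1 i with h | h
      · exact Or.inl h
      · refine Or.inr fun hh => h ?_
        rw [Finset.mem_biUnion]
        exact ⟨x, hx, Finset.mem_image.2 ⟨j, Finset.mem_univ _, hh.symm⟩⟩)
  refine ⟨Finset.univ.biUnion R, fun n => t (f n), ?_, ?_⟩
  · intro m n h
    by_contra hne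
    rcases lt_or_gt_of_ne hne with h1 | h1
    · exact (hf m n h1).1 (hinj h)
    · exact (hf n m h1).1 (hinj h).symm
  · intro m n i j hne h
    rcases lt_or_gt_of_ne hne with h1 | h1
    · rcases (hf m n h1).2 j i with h2 | h2
      · rw [h]
        exact h2
      · exact absurd h.symm h2
    · rcases (hf n m h1).2 i j with h2 | h2
      · exact h2
      · exact absurd h h2

/-- The tuple formed by a pattern. -/
def ev {r n : ℕ} {V : Type} {R : Finset V} (u : ℕ → Fin r → V)
    (ρ : Fin r → R ⊕ (Fin n × Fin r)) (b : Fin n → ℕ) (i : Fin r) : V :=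
  Sum.elim (fun w : R => (w : V)) (fun q => u (b q.1) q.2) (ρ i)

lemma fq_ramsey {r : ℕ} {K V : Type} (M : St r K V) (R : Finset V) (u : ℕ → Fin r → V)
    (hu : Injective fun n => M (u n)) :
    ∃ h : ℕ → ℕ, StrictMono h ∧ ∀ (a : ℕ) (x : Fin r → V),
      (∀ i, x i ∈ R ∨ ∃ b, b ≠ a ∧ ∃ i', x i = u (h b) i') → M x ≠ M (u (h a)) := by
  classical
  obtain ⟨H, C, hH, hC⟩ := Pool.Agent.H330.infinite_ramsey (A := ℕ)
    (C := Set ((Fin r → R ⊕ (Fin (r + 1) × Fin r)) × Fin (r + 1))) (r + 1)
    (fun B => {q | ∃ h : B.card = r + 1, (∀ i l i', q.1 i = Sum.inr (l, i') → l ≠ q.2) ∧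
       M (ev u q.1 (B.orderEmbOfFin h)) = M (u (B.orderEmbOfFin h q.2))})
  obtain ⟨h, hh, hmem⟩ : ∃ h : ℕ → ℕ, StrictMono h ∧ ∀ n, h n ∈ H :=
    ⟨Nat.nth (· ∈ H), Nat.nth_strictMono hH, fun n => Nat.nth_mem_of_infinite hH n⟩
  have main : ∀ b : Fin (r + 1) → ℕ, StrictMono b → ∀ q,
      q ∈ C ↔ ((∀ i l i', q.1 i = Sum.inr (l, i') → l ≠ q.2) ∧
        M (ev u q.1 (h ∘ b)) = M (u (h (b q.2)))) := by
    intro b hb q
    have hmono : StrictMono (h ∘ b) := hh.comp hb
    have hcard : (Finset.univ.map ⟨h ∘ b, hmono.injective⟩).card = r + 1 := by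
      rw [Finset.card_map, Finset.card_univ, Fintype.card_fin]
    have hsub : ((Finset.univ.map ⟨h ∘ b, hmono.injective⟩ : Finset ℕ) : Set ℕ) ⊆ H := by
      intro x hx
      rw [Finset.mem_coe, Finset.mem_map] at hx
      obtain ⟨y, -, rfl⟩ := hx
      exact hmem _
    have h1 := hC _ hcard hsub
    have h2 : h ∘ b = (Finset.univ.map ⟨h ∘ b, hmono.injective⟩).orderEmbOfFin hcard :=
      Finset.orderEmbOfFin_unique hcard (fun x => Finset.mem_map_of_mem _ (Finset.mem_univ x)) hmono
    rw [← h1, Set.mem_ofPred_eq]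
    rw [exists_prop_of_true hcard, ← h2]
    rfl
  have nope : ∀ q, q ∉ C := by
    rintro ⟨ρ, j⟩ hq
    have hb1 : StrictMono fun l : Fin (r + 1) => 2 * (l : ℕ) := by
      intro x y hxy
      have : (x : ℕ) < y := hxy
      simp only
      omega
    have hb2 : StrictMono fun l : Fin (r + 1) => if l = j then 2 * (l : ℕ) + 1 else 2 * (l : ℕ) := by
      intro x y hxy
      have : (x : ℕ) < y := hxy
      simp only
      split_ifs <;> omega
    obtain ⟨h1, h2⟩ := (main _ hb1 _).1 hq
    obtain ⟨-, h3⟩ := (main _ hb2 _).1 hq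
    have h4 : ev u ρ (h ∘ fun l : Fin (r + 1) => 2 * (l : ℕ)) =
        ev u ρ (h ∘ fun l : Fin (r + 1) => if l = j then 2 * (l : ℕ) + 1 else 2 * (l : ℕ)) := by
      funext i
      unfold ev
      rcases hi : ρ i with w | ⟨l, i'⟩
      · rfl
      · have h5 := h1 i l i' hi
        simp only at h5
        simp only [Sum.elim_inr, comp_apply, if_neg h5]
    simp only at h2 h3
    rw [h4, h3] at h2
    have h6 := hh.injective (hu h2)
    simp at h6
  refine ⟨h, hh, fun a x hx hM => ?_⟩
  have hx' : ∀ i, ∃ b, (x i ∉ R → b ≠ a ∧ ∃ i', x i = u (h b) i') := by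
    intro i
    rcases hx i with h1 | ⟨b, hb⟩
    · exact ⟨0, fun h2 => absurd h1 h2⟩
    · exact ⟨b, fun _ => hb⟩
  choose b hb using hx'
  obtain ⟨D, hD1, hD2⟩ := Infinite.exists_superset_card_eq (insert a (Finset.univ.image b)) (r + 1)
    (by
      refine (Finset.card_insert_le _ _).trans (Nat.succ_le_succ ?_)
      exact Finset.card_image_le.trans (by simp))
  have hlev : ∀ m ∈ D, ∃ l, D.orderEmbOfFin hD2 l = m := by
    intro m hm
    have : m ∈ Set.range (D.orderEmbOfFin hD2) := by
      rw [Finset.range_orderEmbOfFin]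
      exact hm
    exact this
  obtain ⟨j, hj⟩ := hlev a (hD1 (Finset.mem_insert_self _ _))
  have hρ : ∀ i, ∃ q : R ⊕ (Fin (r + 1) × Fin r), (∀ l i', q = Sum.inr (l, i') → l ≠ j) ∧
      Sum.elim (fun w : R => (w : V)) (fun q => u ((h ∘ D.orderEmbOfFin hD2) q.1) q.2) q = x i := by
    intro i
    by_cases h1 : x i ∈ R
    · exact ⟨Sum.inl ⟨x i, h1⟩, fun l i' hh => by simp at hh, rfl⟩
    · obtain ⟨h2, i', h3⟩ := hb i h1
      obtain ⟨l, hl⟩ := hlev (b i) (hD1 (Finset.mem_insert_of_mem
        (Finset.mem_image_of_mem _ (Finset.mem_univ i))))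
      refine ⟨Sum.inr (l, i'), fun l' i'' hh => ?_, ?_⟩
      · obtain ⟨rfl, -⟩ := Prod.mk.inj (Sum.inr.inj hh)
        rintro rfl
        exact h2 (hl.symm.trans hj)
      · simp only [Sum.elim_inr, comp_apply, hl]
        exact h3.symm
  choose ρ hρ1 hρ2 using hρ
  refine nope (ρ, j) ((main _ (D.orderEmbOfFin hD2).strictMono _).2 ⟨fun i l i' => hρ1 i l i', ?_⟩)
  have h5 : ev u ρ (h ∘ D.orderEmbOfFin hD2) = x := funext fun i => hρ2 i
  simp only [h5, hj, hM]

theorem s_FQ : S_FQ := by
  classical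
  intro r K V _ _ M hM
  obtain ⟨R, u, hu1, hu2⟩ := fq_seq M hM
  obtain ⟨h, hh, hx⟩ := fq_ramsey M R u hu1
  set v : ℕ → Fin r → V := fun n => u (h n) with hv
  have hv1 : Injective fun n => M (v n) := fun m n hmn => hh.injective (hu1 hmn)
  have hv2 : ∀ m n i j, m ≠ n → v m i = v n j → v m i ∈ R :=
    fun m n i j hmn => hu2 _ _ i j fun e => hmn (hh.injective e)
  set idx : (ℕ → Bool) → ℕ → ℕ := fun c m => 2 * m + (c m).toNat with hidx
  have hle : ∀ b : Bool, b.toNat ≤ 1 := fun b => by cases b <;> simp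
  have hidx1 : ∀ c d m m', idx c m = idx d m' → m = m' ∧ c m = d m' := by
    intro c d m m' h1
    simp only [hidx] at h1
    have h2 := hle (c m)
    have h3 := hle (d m')
    have h4 : m = m' := by omega
    refine ⟨h4, ?_⟩
    have h5 : (c m).toNat = (d m').toNat := by omega
    revert h5
    cases c m <;> cases d m' <;> simp
  set A : (ℕ → Bool) → Set V := fun c => {w | w ∈ R ∨ ∃ m i, w = v (idx c m) i} with hA
  have hA1 : ∀ c m i, v (idx c m) i ∈ A c := fun c m i => Or.inr ⟨m, i, rfl⟩
  have hA2 : ∀ c a x, (∀ i, x i ∈ A c) → M x = M (v a) → ∃ m, a = idx c m := by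
    intro c a x hxA hxM
    by_contra hne
    push Not at hne
    refine hx a x (fun i => ?_) hxM
    rcases hxA i with h1 | ⟨m, i', h1⟩
    · exact Or.inl h1
    · exact Or.inr ⟨idx c m, (hne m).symm, i', h1⟩
  refine ⟨∅, A, fun w => ?_, fun c => by simp, fun c => ?_, fun c d f hf _ hfM => ?_⟩
  · by_cases hw : w ∈ R
    · have : {c | w ∈ A c} = Set.univ := by
        ext c
        simp only [Set.mem_univ, iff_true]
        exact Or.inl hw
      rw [this]
      exact isClopen_univ
    · by_cases hw2 : ∃ b i, w = v b i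
      · obtain ⟨b, i, hb⟩ := hw2
        have : {c : ℕ → Bool | w ∈ A c} = (fun c : ℕ → Bool => c (b / 2)) ⁻¹' {t | t.toNat = b % 2} := by
          ext c
          constructor
          · rintro (h1 | ⟨m, i', h1⟩)
            · exact absurd h1 hw
            · have h2 : b = idx c m := by
                by_contra hne
                exact hw (by rw [hb]; exact hv2 _ _ _ _ hne (hb.symm.trans h1))
              simp only [hidx] at h2
              have h3 := hle (c m)
              have h4 : m = b / 2 := by omega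
              change (c (b / 2)).toNat = b % 2
              rw [← h4]
              omega
          · intro h1
            change (c (b / 2)).toNat = b % 2 at h1
            refine Or.inr ⟨b / 2, i, ?_⟩
            have h2 : idx c (b / 2) = b := by
              simp only [hidx]
              omega
            rw [h2]
            exact hb
        rw [this]
        exact (isClopen_discrete _).preimage (continuous_apply _)
      · have : {c | w ∈ A c} = ∅ := by
          ext c
          simp only [Set.mem_empty_iff_false, iff_false]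
          rintro (h1 | ⟨m, i', h1⟩)
          · exact hw h1
          · exact hw2 ⟨_, _, h1⟩
        rw [this]
        exact isClopen_empty
  · intro hfin
    have h1 : {x : Fin r → V | ∀ i, x i ∈ A c}.Finite := Set.Finite.pi' fun _ => hfin
    have h2 := h1.image M
    have h3 : (range fun m => M (v (idx c m))).Infinite := by
      apply Set.infinite_range_of_injective
      intro m m' hmm
      exact (hidx1 c c m m' (hv1 hmm)).1
    refine h3 (h2.subset ?_)
    rintro _ ⟨m, rfl⟩
    exact ⟨v (idx c m), fun i => hA1 c m i, rfl⟩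
  · funext m
    obtain ⟨m', hm'⟩ := hA2 d (idx c m) (f ∘ v (idx c m)) (fun i => hf.mapsTo (hA1 c m i))
      (hfM _ fun i => hA1 c m i)
    obtain ⟨rfl, h2⟩ := hidx1 c d m m' hm'
    exact h2

end Pool.Agent.L7h73.UN
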