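import Pool.Agent.L7h71.UN.Stm

set_option autoImplicit false

/-!
# Project UN (helper71), part PERF
-/

namespace Pool.Agent.L7h73.UN

open Set Filter Function Pool.Agent.L7h71.UN

open Classical in
lemma count_congr {p q : ℕ → Prop} {n : ℕ} (h : ∀ m < n, p m ↔ q m) :
    Nat.count p n = Nat.count q n := by
  induction n with
  | zero => simp
  | succ n ih =>
    rw [Nat.count_succ, Nat.count_succ, ih fun m hm => h m (hm.trans (Nat.lt_succ_self n))]
    by_cases hp : p n
    · rw [if_pos hp, if_pos ((h n (Nat.lt_succ_self n)).1 hp)]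
    · rw [if_neg hp, if_neg fun hq => hp ((h n (Nat.lt_succ_self n)).2 hq)]

open Classical in
lemma nth_congr {p q : ℕ → Prop} (hp : (Set.ofPred p).Infinite) {m : ℕ}
    (h : ∀ k ≤ Nat.nth p m, p k ↔ q k) : Nat.nth q m = Nat.nth p m := by
  have h1 : Nat.count p (Nat.nth p m) = m := Nat.count_nth_of_infinite hp m
  have h2 : Nat.count q (Nat.nth p m) = m := by
    rw [← count_congr fun k hk => h k hk.le, h1]
  have h3 : q (Nat.nth p m) := (h _ le_rfl).1 (Nat.nth_mem_of_infinite hp m)
  have h4 := Nat.nth_count h3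
  rwa [h2] at h4

/-- the conditions on finitely many indices are open -/
lemma open_agree {C : Type*} [TopologicalSpace C] {P : C → ℕ → Prop}
    (hP : ∀ n, IsClopen {c | P c n}) (c₀ : C) (N : ℕ) :
    ∀ᶠ c in nhds c₀, ∀ n ≤ N, P c₀ n ↔ P c n := by
  have h1 : ∀ n, ∀ᶠ c in nhds c₀, (P c₀ n ↔ P c n) := by
    intro n
    by_cases h : P c₀ n
    · have : {c | P c n} ∈ nhds c₀ := (hP n).isOpen.mem_nhds h
      exact Filter.Eventually.mono this fun c hc => ⟨fun _ => hc, fun _ => h⟩
    · have : {c | ¬ P c n} ∈ nhds c₀ := (hP n).compl.isOpen.mem_nhds h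
      exact Filter.Eventually.mono this fun c hc => ⟨fun h' => absurd h' h, fun h' => absurd h' hc⟩
  have h2 := (Filter.eventually_all_finite (Set.finite_Iic N)).2 fun n _ => h1 n
  exact h2.mono fun c hc n hn => hc n hn

open Classical in
theorem s_PERF (h : S_PERF0) : S_PERF := by
  intro r K V W _ M N hMN hN
  obtain ⟨s, A, hA1, hA2, hA3, hA4⟩ := hN
  have : Infinite W := Set.infinite_univ_iff.1 ((hA3 fun _ => false).mono (Set.subset_univ _))
  obtain ⟨e⟩ : Nonempty (ℕ ≃ W) := nonempty_equiv_of_countable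
  set P : (ℕ → Bool) → ℕ → Prop := fun c n => e n ∈ A c with hP
  have hPc : ∀ n, IsClopen {c | P c n} := fun n => hA1 (e n)
  have hPi : ∀ c, (Set.ofPred (P c)).Infinite := by
    intro c
    have h1 : Set.ofPred (P c) = e ⁻¹' (A c) := rfl
    rw [h1]
    exact (hA3 c).preimage (by rw [e.range_eq_univ]; exact Set.subset_univ _)
  set ν : (ℕ → Bool) → ℕ → W := fun c m => e (Nat.nth (P c) m) with hν
  set κ : (ℕ → Bool) → W → ℕ := fun c w => Nat.count (P c) (e.symm w) with hκ
  have hνA : ∀ c m, ν c m ∈ A c := fun c m => Nat.nth_mem_of_infinite (hPi c) m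
  have hκν : ∀ c m, κ c (ν c m) = m := by
    intro c m
    rw [hκ, hν]
    simp only [Equiv.symm_apply_apply]
    exact Nat.count_nth_of_infinite (hPi c) m
  have hνκ : ∀ c w, w ∈ A c → ν c (κ c w) = w := by
    intro c w hw
    rw [hκ, hν]
    simp only
    rw [Nat.nth_count (p := P c) (by rw [hP]; simpa using hw), Equiv.apply_symm_apply]
  have hνinj : ∀ c, Injective (ν c) := fun c => LeftInverse.injective (hκν c)
  set g : (ℕ → Bool) → St r K ℕ := fun c x => N (ν c ∘ x) with hg
  set sc : (ℕ → Bool) → Fin s.card → ℕ := fun c i => κ c (s.equivFin.symm i : W) with hsc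
  have hνloc : ∀ m, IsLocallyConstant fun c => ν c m := by
    intro m
    rw [IsLocallyConstant.iff_eventually_eq]
    intro c₀
    refine (open_agree hPc c₀ (Nat.nth (P c₀) m)).mono fun c hc => ?_
    rw [hν]
    simp only
    rw [nth_congr (hPi c₀) hc]
  have hκloc : ∀ w, IsLocallyConstant fun c => κ c w := by
    intro w
    rw [IsLocallyConstant.iff_eventually_eq]
    intro c₀
    refine (open_agree hPc c₀ (e.symm w)).mono fun c hc => ?_
    rw [hκ]
    simp only
    exact (count_congr fun k hk => hc k hk.le).symm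
  obtain ⟨h', hh1, hh2⟩ := h r s.card K g sc (by
    intro x
    rw [IsLocallyConstant.iff_eventually_eq]
    intro c₀
    have h1 : ∀ᶠ c in nhds c₀, ∀ i, ν c (x i) = ν c₀ (x i) := by
      rw [Filter.eventually_all]
      intro i
      exact (IsLocallyConstant.iff_eventually_eq _).1 (hνloc (x i)) c₀
    refine h1.mono fun c hc => ?_
    rw [hg]
    simp only
    congr 1
    funext i
    exact hc i) (fun i => hκloc _) (by
    intro c d e' he1 he2
    refine hA4 c d (fun w => ν d (e' (κ c w))) ⟨fun w _ => hνA d _, ?_, ?_⟩ ?_ ?_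
    · intro w hw w' hw' hww
      have h1 := e'.injective (hνinj d hww)
      rw [← hνκ c w hw, ← hνκ c w' hw', h1]
    · intro w hw
      refine ⟨ν c (e'.symm (κ d w)), hνA c _, ?_⟩
      simp only
      rw [hκν, Equiv.apply_symm_apply, hνκ d w hw]
    · intro w hw
      have h1 := he1 (s.equivFin ⟨w, hw⟩)
      rw [hsc] at h1
      simp only [Equiv.symm_apply_apply] at h1
      rw [h1, hνκ d w (hA2 d hw)]
    · intro x hx
      have h1 := he2 (κ c ∘ x)
      rw [hg] at h1
      simp only at h1
      have e1 : ν c ∘ κ c ∘ x = x := by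
        funext i
        exact hνκ c (x i) (hx i)
      rw [e1] at h1
      rw [← h1]
      rfl)
  refine ⟨fun c => g (h' c), fun x => ?_, fun c => ?_, hh2⟩
  · have h1 : IsLocallyConstant fun c => g c x := by
      rw [IsLocallyConstant.iff_eventually_eq]
      intro c₀
      have h1 : ∀ᶠ c in nhds c₀, ∀ i, ν c (x i) = ν c₀ (x i) := by
        rw [Filter.eventually_all]
        intro i
        exact (IsLocallyConstant.iff_eventually_eq _).1 (hνloc (x i)) c₀
      refine h1.mono fun c hc => ?_
      rw [hg]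
      simp only
      congr 1
      funext i
      exact hc i
    exact h1.comp_continuous hh1
  · refine hMN.trans fun F => ⟨ν (h' c), (hνinj _).injOn, fun x _ => rfl⟩

end Pool.Agent.L7h73.UN
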