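import Pool.Agent.L7h71.UN.Stm

set_option autoImplicit false

/-!
# Project UN (helper71), parts SPR and SYM
-/

namespace Pool.Agent.L7h73.UN

open Set Filter Function Pool.Agent.L7h71.UN

theorem s_SPR (h : S_ADJ) : S_SPR := by
  classical
  intro r K _ n hn V _ _ M hM S ι _ p hp z μ l
  induction l with
  | nil =>
    intro _ _ x0
    rfl
  | cons s l ih =>
    intro hnd hcnt x0
    have h1 := h r K n hn V M hM S ι p hp z μ s l hnd (hcnt s List.mem_cons_self) x0
    rw [h1]
    have hnd' : (μ :: l).Nodup := by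
      rw [List.nodup_cons] at hnd ⊢
      refine ⟨fun hh => hnd.1 (List.mem_cons_of_mem _ hh), (List.nodup_cons.1 hnd.2).2⟩
    change Pool.Agent.L7h71.UN.lim (p s)
        (fun y => itl p (fun x => M (subs z x)) (μ :: l) (Function.update x0 s y)) =
      Pool.Agent.L7h71.UN.lim (p s)
        (fun y => itl p (fun x => M (subs z x)) (l ++ [μ]) (Function.update x0 s y))
    congr 1
    funext y
    exact ih hnd' (fun t ht => hcnt t (List.mem_cons_of_mem _ ht)) _

theorem s_SYM (h1 : S_PRO) (h2 : S_ADJ) : S_SYM := by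
  classical
  intro r K _ hcomm V _ _ M hM S ι _ p hp
  have key : ∀ (z : Fin r → V ⊕ (Σ s, ι s)) (l l' : List S), l.Perm l' → l.Nodup →
      ∀ x0 : ∀ s, ι s → V, itl p (fun x => M (subs z x)) l x0 =
        itl p (fun x => M (subs z x)) l' x0 := by
    intro z l l' hperm
    induction hperm with
    | nil => intro _ _; rfl
    | cons s _ ih =>
      intro hnd x0
      change lim (p s) (fun y => itl p (fun x => M (subs z x)) _ (Function.update x0 s y)) =
        lim (p s) (fun y => itl p (fun x => M (subs z x)) _ (Function.update x0 s y))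
      congr 1
      funext y
      exact ih (List.nodup_cons.1 hnd).2 _
    | swap s t l =>
      intro hnd x0
      exact h2 r K (cnt z t + cnt z s + 1) (hcomm _) V M hM S ι p hp z t s l hnd
        (Nat.lt_succ_self _) x0
    | trans ha _ iha ihb =>
      intro hnd x0
      rw [iha hnd x0, ihb (ha.nodup_iff.1 hnd) x0]
  refine ⟨key, ?_⟩
  let _ : LinearOrder S := IsWellOrder.linearOrder (WellOrderingRel (α := S))
  obtain ⟨P, hP1, hP2⟩ := h1 V S ι p
  refine ⟨P, hP1 hp, fun z l hnd hl x0 => ?_⟩
  have hperm : (l.mergeSort (· ≤ ·)).Perm l := List.mergeSort_perm _ _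
  have hnd' : (l.mergeSort (· ≤ ·)).Nodup := hperm.nodup_iff.2 hnd
  have hsorted : (l.mergeSort (· ≤ ·)).Pairwise (· ≤ ·) := by
    have := List.pairwise_mergeSort (le := fun a b : S => decide (a ≤ b))
      (fun a b c h1 h2 => by simpa using le_trans (by simpa using h1) (by simpa using h2))
      (fun a b => by simpa using le_total a b) l
    exact this.imp (fun h => by simpa using h)
  have hlt : (l.mergeSort (· ≤ ·)).Pairwise (· < ·) := by
    have h3 := hsorted.and hnd'
    exact h3.imp fun h => lt_of_le_of_ne h.1 h.2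
  rw [hP2 r K M z _ hlt (fun i w hw => hperm.mem_iff.2 (hl i w hw)) x0]
  exact key z _ _ hperm hnd' x0

end Pool.Agent.L7h73.UN
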